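import Pool.Agent.Helper91.LC.Defs

/-!
# LC-3: Bonk's distortion theorem
-/

set_option autoImplicit false

namespace Pool.Agent.Helper50.LC

open Complex Metric Set Filter Topology
open Pool.Agent.Helper91.LC

/-! ### Schwarz-Pick -/

lemma norm_one_sub_sq (a b : ℂ) : ‖1 - (starRingEnd ℂ) b * a‖ ^ 2 - ‖a - b‖ ^ 2 =
    (1 - ‖a‖ ^ 2) * (1 - ‖b‖ ^ 2) := by
  rw [← Complex.normSq_eq_norm_sq, ← Complex.normSq_eq_norm_sq, ← Complex.normSq_eq_norm_sq,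
    ← Complex.normSq_eq_norm_sq]
  simp only [Complex.normSq_apply, Complex.sub_re, Complex.sub_im, Complex.mul_re, Complex.mul_im,
    Complex.conj_re, Complex.conj_im, Complex.one_re, Complex.one_im]
  ring

lemma one_sub_ne_zero' {a b : ℂ} (ha : ‖a‖ < 1) (hb : ‖b‖ < 1) :
    1 - (starRingEnd ℂ) b * a ≠ 0 := by
  intro h
  have h1 := norm_one_sub_sq a b
  rw [h] at h1
  have h2 : 0 < (1 - ‖a‖ ^ 2) * (1 - ‖b‖ ^ 2) := by
    have := norm_nonneg a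
    have := norm_nonneg b
    apply mul_pos <;> nlinarith
  have h3 := sq_nonneg ‖a - b‖
  rw [norm_zero] at h1
  nlinarith

lemma norm_div_lt {a b : ℂ} (ha : ‖a‖ < 1) (hb : ‖b‖ < 1) :
    ‖(a - b) / (1 - (starRingEnd ℂ) b * a)‖ < 1 := by
  have h0 := one_sub_ne_zero' ha hb
  rw [norm_div, div_lt_one (norm_pos_iff.mpr h0)]
  have h1 := norm_one_sub_sq a b
  have h2 : 0 < (1 - ‖a‖ ^ 2) * (1 - ‖b‖ ^ 2) := by
    have := norm_nonneg a
    have := norm_nonneg b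
    apply mul_pos <;> nlinarith
  exact lt_of_pow_lt_pow_left₀ 2 (norm_nonneg _) (by linarith)

/-- Schwarz-Pick, strict form. -/
lemma schwarz_pick_strict {Q : ℂ → ℂ} (hQ : DifferentiableOn ℂ Q (ball 0 1))
    (hb : ∀ z ∈ ball (0 : ℂ) 1, ‖Q z‖ < 1) {ξ ζ : ℂ} (hξ : ‖ξ‖ < 1) (hζ : ‖ζ‖ < 1) :
    (1 - ‖ζ‖ ^ 2) * (1 - ‖ξ‖ ^ 2) * ‖1 - (starRingEnd ℂ) (Q ξ) * Q ζ‖ ^ 2 ≤
      (1 - ‖Q ζ‖ ^ 2) * (1 - ‖Q ξ‖ ^ 2) * ‖1 - (starRingEnd ℂ) ξ * ζ‖ ^ 2 := by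
  set b := Q ξ with hbdef
  have hb1 : ‖b‖ < 1 := hb ξ (mem_ball_zero_iff.mpr hξ)
  let T : ℂ → ℂ := fun w => (w - (-ξ)) / (1 - (starRingEnd ℂ) (-ξ) * w)
  have hξ' : ‖-ξ‖ < 1 := by rwa [norm_neg]
  have hT : ∀ w ∈ ball (0 : ℂ) 1, T w ∈ ball (0 : ℂ) 1 := by
    intro w hw
    rw [mem_ball_zero_iff] at hw ⊢
    exact norm_div_lt hw hξ'
  have hTd : DifferentiableOn ℂ T (ball 0 1) := by
    intro w hw
    rw [mem_ball_zero_iff] at hw
    apply DifferentiableAt.differentiableWithinAt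
    refine DifferentiableAt.div (by fun_prop) (by fun_prop) (one_sub_ne_zero' hw hξ')
  let ψ : ℂ → ℂ := fun w => (Q (T w) - b) / (1 - (starRingEnd ℂ) b * Q (T w))
  have hψd : DifferentiableOn ℂ ψ (ball 0 1) := by
    have h1 : DifferentiableOn ℂ (fun w => Q (T w)) (ball 0 1) := hQ.comp hTd hT
    refine DifferentiableOn.div (h1.sub_const _) ((h1.const_mul _).const_sub _) ?_
    intro w hw
    exact one_sub_ne_zero' (hb _ (hT w hw)) hb1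
  have hψm : MapsTo ψ (ball 0 1) (closedBall 0 1) := by
    intro w hw
    rw [mem_closedBall_zero_iff]
    exact (norm_div_lt (hb _ (hT w hw)) hb1).le
  have hT0 : T 0 = ξ := by simp [T]
  have hψ0 : ψ 0 = 0 := by
    simp only [ψ, hT0]
    rw [← hbdef]
    simp
  let w0 : ℂ := (ζ - ξ) / (1 - (starRingEnd ℂ) ξ * ζ)
  have hden : 1 - (starRingEnd ℂ) ξ * ζ ≠ 0 := one_sub_ne_zero' hζ hξ
  have hw0 : ‖w0‖ < 1 := norm_div_lt hζ hξ
  have hTw0 : T w0 = ζ := by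
    have h2 : 1 - (starRingEnd ℂ) (-ξ) * w0 ≠ 0 := one_sub_ne_zero' hw0 hξ'
    have h3 : w0 * (1 - (starRingEnd ℂ) ξ * ζ) = ζ - ξ := div_mul_cancel₀ _ hden
    simp only [T]
    rw [div_eq_iff h2]
    rw [map_neg]
    linear_combination h3
  have hS := Complex.norm_le_norm_of_mapsTo_ball hψd hψm hψ0 hw0
  have hψw0 : ψ w0 = (Q ζ - b) / (1 - (starRingEnd ℂ) b * Q ζ) := by
    simp only [ψ, hTw0]
  rw [hψw0] at hS
  have hQζ : ‖Q ζ‖ < 1 := hb ζ (mem_ball_zero_iff.mpr hζ)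
  have hden2 : 1 - (starRingEnd ℂ) b * Q ζ ≠ 0 := one_sub_ne_zero' hQζ hb1
  simp only [w0] at hS
  rw [norm_div, norm_div, div_le_div_iff₀ (norm_pos_iff.mpr hden2) (norm_pos_iff.mpr hden)] at hS
  have h1 := norm_one_sub_sq (Q ζ) b
  have h2 := norm_one_sub_sq ζ ξ
  have h3 : (‖Q ζ - b‖ * ‖1 - (starRingEnd ℂ) ξ * ζ‖) ^ 2 ≤
      (‖ζ - ξ‖ * ‖1 - (starRingEnd ℂ) b * Q ζ‖) ^ 2 :=
    pow_le_pow_left₀ (by positivity) hS 2
  rw [mul_pow, mul_pow] at h3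
  have h4 : ‖Q ζ - b‖ ^ 2 = ‖1 - (starRingEnd ℂ) b * Q ζ‖ ^ 2 -
    (1 - ‖Q ζ‖ ^ 2) * (1 - ‖b‖ ^ 2) := by linarith
  have h5 : ‖ζ - ξ‖ ^ 2 = ‖1 - (starRingEnd ℂ) ξ * ζ‖ ^ 2 -
    (1 - ‖ζ‖ ^ 2) * (1 - ‖ξ‖ ^ 2) := by linarith
  rw [h4, h5] at h3
  nlinarith

/-- Schwarz-Pick. -/
lemma schwarz_pick {Q : ℂ → ℂ} (hQ : DifferentiableOn ℂ Q (ball 0 1))
    (hb : ∀ z ∈ ball (0 : ℂ) 1, ‖Q z‖ ≤ 1) {ξ ζ : ℂ} (hξ : ‖ξ‖ < 1) (hζ : ‖ζ‖ < 1) :
    (1 - ‖ζ‖ ^ 2) * (1 - ‖ξ‖ ^ 2) * ‖1 - (starRingEnd ℂ) (Q ξ) * Q ζ‖ ^ 2 ≤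
      (1 - ‖Q ζ‖ ^ 2) * (1 - ‖Q ξ‖ ^ 2) * ‖1 - (starRingEnd ℂ) ξ * ζ‖ ^ 2 := by
  have key : ∀ t ∈ Ioo (0 : ℝ) 1,
      (1 - ‖ζ‖ ^ 2) * (1 - ‖ξ‖ ^ 2) *
        ‖1 - (starRingEnd ℂ) ((t : ℂ) * Q ξ) * ((t : ℂ) * Q ζ)‖ ^ 2 ≤
      (1 - ‖(t : ℂ) * Q ζ‖ ^ 2) * (1 - ‖(t : ℂ) * Q ξ‖ ^ 2) *
        ‖1 - (starRingEnd ℂ) ξ * ζ‖ ^ 2 := by
    intro t ht
    refine schwarz_pick_strict (Q := fun z => (t : ℂ) * Q z) (hQ.const_mul _) ?_ hξ hζ
    intro z hz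
    rw [norm_mul, Complex.norm_real, Real.norm_of_nonneg ht.1.le]
    nlinarith [hb z hz, ht.1, ht.2, norm_nonneg (Q z)]
  have h1 : Tendsto (fun t : ℝ => (1 - ‖ζ‖ ^ 2) * (1 - ‖ξ‖ ^ 2) *
        ‖1 - (starRingEnd ℂ) ((t : ℂ) * Q ξ) * ((t : ℂ) * Q ζ)‖ ^ 2) (𝓝[<] 1)
      (𝓝 ((1 - ‖ζ‖ ^ 2) * (1 - ‖ξ‖ ^ 2) *
        ‖1 - (starRingEnd ℂ) (((1 : ℝ) : ℂ) * Q ξ) * (((1 : ℝ) : ℂ) * Q ζ)‖ ^ 2)) := by
    apply Tendsto.mono_left _ nhdsWithin_le_nhds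
    refine Continuous.tendsto ?_ 1
    have h2 : Continuous (fun t : ℝ => (starRingEnd ℂ) ((t : ℂ) * Q ξ)) :=
      Complex.continuous_conj.comp (by fun_prop)
    fun_prop
  have h2 : Tendsto (fun t : ℝ => (1 - ‖(t : ℂ) * Q ζ‖ ^ 2) * (1 - ‖(t : ℂ) * Q ξ‖ ^ 2) *
        ‖1 - (starRingEnd ℂ) ξ * ζ‖ ^ 2) (𝓝[<] 1)
      (𝓝 ((1 - ‖((1 : ℝ) : ℂ) * Q ζ‖ ^ 2) * (1 - ‖((1 : ℝ) : ℂ) * Q ξ‖ ^ 2) *
        ‖1 - (starRingEnd ℂ) ξ * ζ‖ ^ 2)) := by
    apply Tendsto.mono_left _ nhdsWithin_le_nhds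
    refine Continuous.tendsto ?_ 1
    fun_prop
  have h3 := le_of_tendsto_of_tendsto h1 h2 (by
    filter_upwards [Ioo_mem_nhdsLT (show (0 : ℝ) < 1 by norm_num)] with t ht
    exact key t ht)
  simpa using h3

/-! ### Julia's inequality -/

lemma julia {Q : ℂ → ℂ} (hQ : DifferentiableOn ℂ Q (ball 0 1))
    (hb : ∀ z ∈ ball (0 : ℂ) 1, ‖Q z‖ ≤ 1) (h1 : Q 1 = 1) (hd : HasDerivAt Q (1 / 2) 1)
    {y : ℝ} (hy : -1 < y) (hy' : y < 1) :
    2 * (1 - y ^ 2) * ‖1 - Q y‖ ^ 2 ≤ (1 - ‖Q y‖ ^ 2) * (1 - y) ^ 2 := by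
  have hyn : ‖(y : ℂ)‖ < 1 := by
    rw [Complex.norm_real, Real.norm_eq_abs, abs_lt]
    exact ⟨hy, hy'⟩
  have hyn2 : ‖(y : ℂ)‖ ^ 2 = y ^ 2 := by
    rw [Complex.norm_real, Real.norm_eq_abs, sq_abs]
  -- the function `r ε = Q (1 - ε)`
  have hr : HasDerivAt (fun ε : ℝ => Q (1 - ε)) (-(1 / 2)) 0 := by
    have h2 : HasDerivAt (fun ε : ℝ => (1 : ℂ) - (ε : ℂ)) (-1) 0 := by
      have := (Complex.ofRealCLM.hasDerivAt (x := (0 : ℝ))).const_sub (1 : ℂ)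
      simpa using this
    have h3 : HasDerivAt Q (1 / 2) ((fun ε : ℝ => (1 : ℂ) - (ε : ℂ)) 0) := by simpa using hd
    have h4 := h3.scomp (0 : ℝ) h2
    have h5 : (-1 : ℂ) • ((1 : ℂ) / 2) = -(1 / 2) := by simp
    rw [h5] at h4
    exact h4
  have hrc : Tendsto (fun ε : ℝ => Q (1 - ε)) (𝓝[>] 0) (𝓝 1) := by
    have := hr.continuousAt.tendsto
    simp only [Complex.ofReal_zero, sub_zero, h1] at this
    exact this.mono_left nhdsWithin_le_nhds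
  have hn : HasDerivAt (fun ε : ℝ => ‖Q (1 - ε)‖ ^ 2) (-1) 0 := by
    have h2 := hr.norm_sq
    have h3 : 2 * (inner ℝ (Q (1 - ((0 : ℝ) : ℂ))) (-(1 / 2)) : ℝ) = -1 := by
      simp only [Complex.ofReal_zero, sub_zero, h1]
      rw [Complex.inner]
      norm_num
    rw [h3] at h2
    exact h2
  have hs : Tendsto (fun ε : ℝ => (1 - ‖Q (1 - ε)‖ ^ 2) / ε) (𝓝[>] 0) (𝓝 1) := by
    have h2 := hasDerivAt_iff_tendsto_slope.mp hn
    have h2' : Tendsto (slope (fun ε : ℝ => ‖Q (1 - ε)‖ ^ 2) 0) (𝓝[>] 0) (𝓝 (-1)) := by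
      refine h2.mono_left (nhdsWithin_mono _ ?_)
      intro x hx
      exact ne_of_gt hx
    have h3 := h2'.neg
    rw [neg_neg] at h3
    refine h3.congr' ?_
    filter_upwards [self_mem_nhdsWithin] with ε hε
    rw [slope_def_field]
    simp only [Complex.ofReal_zero, sub_zero, h1, norm_one]
    ring
  -- the inequality for small `ε`
  have key : ∀ ε ∈ Ioo (0 : ℝ) 1, (1 - y ^ 2) * (2 - ε) *
      ‖1 - (starRingEnd ℂ) (Q (1 - ε)) * Q y‖ ^ 2 ≤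
      (1 - ‖Q y‖ ^ 2) * ((1 - ‖Q (1 - ε)‖ ^ 2) / ε) * (1 - (1 - ε) * y) ^ 2 := by
    intro ε hε
    have h2 : ‖(1 : ℂ) - (ε : ℂ)‖ = 1 - ε := by
      have : (1 : ℂ) - (ε : ℂ) = ((1 - ε : ℝ) : ℂ) := by push_cast; ring
      rw [this, Complex.norm_real, Real.norm_of_nonneg (by linarith [hε.2])]
    have h3 := schwarz_pick hQ hb (ξ := (1 : ℂ) - (ε : ℂ)) (ζ := (y : ℂ))
      (by rw [h2]; linarith [hε.1]) hyn
    rw [h2, hyn2] at h3
    have h4 : ‖1 - (starRingEnd ℂ) ((1 : ℂ) - (ε : ℂ)) * (y : ℂ)‖ ^ 2 =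
        (1 - (1 - ε) * y) ^ 2 := by
      have : 1 - (starRingEnd ℂ) ((1 : ℂ) - (ε : ℂ)) * (y : ℂ) =
          ((1 - (1 - ε) * y : ℝ) : ℂ) := by
        rw [map_sub, map_one, Complex.conj_ofReal]
        push_cast
        ring
      rw [this, Complex.norm_real, Real.norm_eq_abs, sq_abs]
    rw [h4] at h3
    have h5 : (1 - (1 - ε) ^ 2) = ε * (2 - ε) := by ring
    rw [h5] at h3
    have hε0 : 0 < ε := hε.1
    have h6 : (1 - ‖Q y‖ ^ 2) * ((1 - ‖Q (1 - ε)‖ ^ 2) / ε) * (1 - (1 - ε) * y) ^ 2 =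
        ((1 - ‖Q y‖ ^ 2) * (1 - ‖Q (1 - ε)‖ ^ 2) * (1 - (1 - ε) * y) ^ 2) / ε := by
      ring
    rw [h6, le_div_iff₀ hε0]
    calc (1 - y ^ 2) * (2 - ε) * ‖1 - (starRingEnd ℂ) (Q (1 - ε)) * Q y‖ ^ 2 * ε
        = (1 - y ^ 2) * (ε * (2 - ε)) * ‖1 - (starRingEnd ℂ) (Q (1 - ε)) * Q y‖ ^ 2 := by ring
      _ ≤ _ := h3
  have l1 : Tendsto (fun ε : ℝ => (1 - y ^ 2) * (2 - ε) *
      ‖1 - (starRingEnd ℂ) (Q (1 - ε)) * Q y‖ ^ 2) (𝓝[>] 0)
      (𝓝 ((1 - y ^ 2) * (2 - 0) * ‖1 - (starRingEnd ℂ) 1 * Q y‖ ^ 2)) := by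
    have h2 : Tendsto (fun ε : ℝ => ε) (𝓝[>] 0) (𝓝 0) := tendsto_id.mono_left nhdsWithin_le_nhds
    have h3 : Tendsto (fun ε : ℝ => (starRingEnd ℂ) (Q (1 - ε))) (𝓝[>] 0)
        (𝓝 ((starRingEnd ℂ) 1)) := (Complex.continuous_conj.tendsto 1).comp hrc
    exact ((h2.const_sub 2).const_mul _).mul (((h3.mul_const _).const_sub 1).norm.pow 2)
  have l2 : Tendsto (fun ε : ℝ => (1 - ‖Q y‖ ^ 2) * ((1 - ‖Q (1 - ε)‖ ^ 2) / ε) *
      (1 - (1 - ε) * y) ^ 2) (𝓝[>] 0)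
      (𝓝 ((1 - ‖Q y‖ ^ 2) * 1 * (1 - (1 - 0) * y) ^ 2)) := by
    have h2 : Tendsto (fun ε : ℝ => ε) (𝓝[>] 0) (𝓝 0) := tendsto_id.mono_left nhdsWithin_le_nhds
    exact (hs.const_mul _).mul ((((h2.const_sub 1).mul_const y).const_sub 1).pow 2)
  have h3 := le_of_tendsto_of_tendsto l1 l2 (by
    filter_upwards [Ioo_mem_nhdsGT (show (0 : ℝ) < 1 by norm_num)] with t ht
    exact key t ht)
  simp only [map_one, one_mul, sub_zero, mul_one] at h3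
  linarith

/-! ### Facts on good functions -/

lemma good_analytic {F : ℂ → ℂ} (hG : Good F) : DifferentiableOn ℂ (deriv F) (ball 0 1) :=
  hG.diff.deriv isOpen_ball

lemma good_hasDerivAt {F : ℂ → ℂ} (hG : Good F) {z : ℂ} (hz : ‖z‖ < 1) :
    HasDerivAt (deriv F) (deriv (deriv F) z) z :=
  ((good_analytic hG).differentiableAt
    (isOpen_ball.mem_nhds (mem_ball_zero_iff.mpr hz))).hasDerivAt

/-- Along every line through `0` the derivative of `Re F'` vanishes. -/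
lemma re_second {F : ℂ → ℂ} (hG : Good F) {u : ℂ} (hu : ‖u‖ = 1) :
    (deriv (deriv F) 0 * u).re = 0 := by
  have h1 : HasDerivAt (fun t : ℝ => (deriv F (t * u)).re) ((deriv (deriv F) 0 * u).re) 0 := by
    have h2 : HasDerivAt (fun t : ℝ => (t : ℂ) * u) u 0 := by
      have := (Complex.ofRealCLM.hasDerivAt (x := (0 : ℝ))).mul_const u
      simpa using this
    have h3 : HasDerivAt (deriv F) (deriv (deriv F) 0) ((fun t : ℝ => (t : ℂ) * u) 0) := by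
      have := good_hasDerivAt hG (z := 0) (by simp)
      simpa using this
    have h4 := h3.scomp (0 : ℝ) h2
    have h5 := Complex.reCLM.hasFDerivAt.comp_hasDerivAt (0 : ℝ) h4
    have h6 : Complex.reCLM (u • deriv (deriv F) 0) = (deriv (deriv F) 0 * u).re := by
      simp [mul_comm]
    rw [h6] at h5
    exact h5
  have h2 : HasDerivAt (fun t : ℝ => 1 / (1 - t ^ 2) - (deriv F (t * u)).re)
      (0 - (deriv (deriv F) 0 * u).re) 0 := by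
    refine HasDerivAt.sub ?_ h1
    have h3 : HasDerivAt (fun t : ℝ => 1 - t ^ 2) 0 0 := by
      have := ((hasDerivAt_pow 2 (0 : ℝ))).const_sub 1
      simpa using this
    have h4 := h3.fun_inv (by norm_num)
    simp only [one_div]
    simpa using h4
  have h3 : IsLocalMin (fun t : ℝ => 1 / (1 - t ^ 2) - (deriv F (t * u)).re) 0 := by
    have h4 : ∀ᶠ t : ℝ in 𝓝 0, t ∈ Ioo (-1 : ℝ) 1 := Ioo_mem_nhds (by norm_num) (by norm_num)
    filter_upwards [h4] with t ht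
    have h5 : (1 : ℝ) / (1 - 0 ^ 2) - (deriv F (((0 : ℝ) : ℂ) * u)).re = 0 := by
      simp [hG.one]
    rw [h5]
    have h6 : ‖(t : ℂ) * u‖ = |t| := by
      rw [norm_mul, hu, mul_one, Complex.norm_real, Real.norm_eq_abs]
    have h7 : |t| < 1 := abs_lt.mpr ht
    have h8 := hG.bd ((t : ℂ) * u) (by rw [mem_ball_zero_iff, h6]; exact h7)
    rw [h6, sq_abs] at h8
    have h9 : 0 < 1 - t ^ 2 := by nlinarith [ht.1, ht.2]
    have h10 : (deriv F (t * u)).re ≤ 1 / (1 - t ^ 2) := by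
      rw [le_div_iff₀ h9]
      refine le_trans ?_ h8
      exact mul_le_mul_of_nonneg_right (Complex.re_le_norm _) h9.le
    linarith
  have h4 := h3.hasDerivAt_eq_zero h2
  linarith

lemma second_zero {F : ℂ → ℂ} (hG : Good F) : deriv (deriv F) 0 = 0 := by
  have h1 := re_second hG (u := 1) (by simp)
  have h2 := re_second hG (u := Complex.I) (by simp)
  simp only [mul_one] at h1
  simp only [Complex.mul_re, Complex.I_re, mul_zero, Complex.I_im, mul_one, zero_sub,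
    neg_eq_zero] at h2
  exact Complex.ext h1 h2

/-- Bonk's theorem at a positive point. -/
lemma bonk_real {F : ℂ → ℂ} (hG : Good F) {x : ℝ} (hx0 : 0 < x) (hx : x < 1 / √3) :
    (1 - √3 * x) / (1 - x / √3) ^ 3 ≤ (deriv F x).re := by
  have h3 : √3 ^ 2 = 3 := Real.sq_sqrt (by norm_num)
  have h30 : 0 < √3 := Real.sqrt_pos.mpr (by norm_num)
  have h3lt : √3 < 2 := by nlinarith
  let m : ℂ → ℂ := fun ζ => ((√3 / 4 : ℝ) : ℂ) * (1 - ζ)
  let q : ℂ → ℂ := fun z => deriv F z * (1 - z / ((√3 : ℝ) : ℂ)) ^ 2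
  let Q : ℂ → ℂ := fun ζ => q (m ζ)
  have hs0 : ((√3 : ℝ) : ℂ) ≠ 0 := by exact_mod_cast h30.ne'
  have hs2 : ((√3 : ℝ) : ℂ) ^ 2 = 3 := by exact_mod_cast h3
  have hm : ∀ ζ : ℂ, ‖ζ‖ ≤ 1 → ‖m ζ‖ < 1 := by
    intro ζ hζ
    simp only [m]
    rw [norm_mul, Complex.norm_real, Real.norm_of_nonneg (by positivity)]
    have : ‖1 - ζ‖ ≤ 2 := by
      calc ‖1 - ζ‖ ≤ ‖(1 : ℂ)‖ + ‖ζ‖ := norm_sub_le _ _
        _ ≤ 2 := by rw [norm_one]; linarith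
    nlinarith
  have hqd : ∀ z : ℂ, ‖z‖ < 1 → DifferentiableAt ℂ q z := by
    intro z hz
    have h1 := (good_hasDerivAt hG hz).differentiableAt
    simp only [q]
    fun_prop
  have hQd : ∀ ζ : ℂ, ‖ζ‖ ≤ 1 → DifferentiableAt ℂ Q ζ := by
    intro ζ hζ
    have h1 := hqd (m ζ) (hm ζ hζ)
    exact h1.comp ζ (by simp only [m]; fun_prop)
  -- the bound on the unit circle
  have hsphere : ∀ ζ : ℂ, ‖ζ‖ = 1 → ‖Q ζ‖ ≤ 1 := by
    intro ζ hζ
    have h1 := hG.bd (m ζ) (mem_ball_zero_iff.mpr (hm ζ hζ.le))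
    have h2 : ‖1 - m ζ / ((√3 : ℝ) : ℂ)‖ ^ 2 = 1 - ‖m ζ‖ ^ 2 := by
      have h4 : 1 - m ζ / ((√3 : ℝ) : ℂ) = (3 + ζ) / 4 := by
        simp only [m]
        push_cast
        field_simp
        ring
      have h5 : ‖m ζ‖ ^ 2 = 3 / 16 * ‖1 - ζ‖ ^ 2 := by
        simp only [m]
        rw [norm_mul, mul_pow, Complex.norm_real, Real.norm_of_nonneg (by positivity), div_pow, h3]
        norm_num
      have h6 : ζ.re * ζ.re + ζ.im * ζ.im = 1 := by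
        have : ‖ζ‖ ^ 2 = 1 := by rw [hζ]; norm_num
        rwa [← Complex.normSq_eq_norm_sq, Complex.normSq_apply] at this
      have h7 : ‖1 - ζ‖ ^ 2 = (1 - ζ.re) * (1 - ζ.re) + ζ.im * ζ.im := by
        rw [← Complex.normSq_eq_norm_sq, Complex.normSq_apply]
        simp
      have h8 : ‖3 + ζ‖ ^ 2 = (3 + ζ.re) * (3 + ζ.re) + ζ.im * ζ.im := by
        rw [← Complex.normSq_eq_norm_sq, Complex.normSq_apply]
        simp
      have h9 : ‖(4 : ℂ)‖ = 4 := by norm_num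
      rw [h4, h5, norm_div, div_pow, h7, h8, h9]
      nlinarith
    have h4 : ‖Q ζ‖ = ‖deriv F (m ζ)‖ * (1 - ‖m ζ‖ ^ 2) := by
      simp only [Q, q]
      rw [norm_mul, norm_pow, h2]
    rw [h4]
    exact h1
  have hdc : DiffContOnCl ℂ Q (ball 0 1) := by
    refine ⟨fun ζ hζ => (hQd ζ (mem_ball_zero_iff.mp hζ).le).differentiableWithinAt, ?_⟩
    rw [closure_ball (0 : ℂ) (by norm_num : (1 : ℝ) ≠ 0)]
    intro ζ hζ
    exact (hQd ζ (mem_closedBall_zero_iff.mp hζ)).continuousAt.continuousWithinAt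
  have hball : ∀ ζ ∈ ball (0 : ℂ) 1, ‖Q ζ‖ ≤ 1 := by
    intro ζ hζ
    refine Complex.norm_le_of_forall_mem_frontier_norm_le isBounded_ball hdc ?_
      (subset_closure hζ)
    intro w hw
    rw [frontier_ball (0 : ℂ) (by norm_num : (1 : ℝ) ≠ 0), mem_sphere_zero_iff_norm] at hw
    exact hsphere w hw
  have hQ1 : Q 1 = 1 := by
    simp [Q, q, m, hG.one]
  have hQ1d : HasDerivAt Q (1 / 2) 1 := by
    have h1 : HasDerivAt m (-((√3 / 4 : ℝ) : ℂ)) 1 := by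
      have := ((hasDerivAt_id (1 : ℂ)).const_sub 1).const_mul ((√3 / 4 : ℝ) : ℂ)
      simpa [m] using this
    have h2 : m 1 = 0 := by simp [m]
    have h4 : HasDerivAt (deriv F) 0 0 := by
      have := good_hasDerivAt hG (z := 0) (by simp)
      rwa [second_zero hG] at this
    have h5 : HasDerivAt (fun z : ℂ => 1 - z / ((√3 : ℝ) : ℂ)) (-(1 / ((√3 : ℝ) : ℂ))) 0 := by
      have := ((hasDerivAt_id (0 : ℂ)).div_const ((√3 : ℝ) : ℂ)).const_sub 1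
      simpa using this
    have h6 : HasDerivAt q (-(2 / ((√3 : ℝ) : ℂ))) 0 := by
      have h7 : HasDerivAt q (0 * (1 - (0 : ℂ) / ((√3 : ℝ) : ℂ)) ^ 2 + deriv F 0 *
          (((2 : ℕ) : ℂ) * (1 - (0 : ℂ) / ((√3 : ℝ) : ℂ)) ^ (2 - 1) *
            (-(1 / ((√3 : ℝ) : ℂ))))) 0 := h4.mul (h5.pow 2)
      have h8 : (0 * (1 - (0 : ℂ) / ((√3 : ℝ) : ℂ)) ^ 2 + deriv F 0 *
          (((2 : ℕ) : ℂ) * (1 - (0 : ℂ) / ((√3 : ℝ) : ℂ)) ^ (2 - 1) *
            (-(1 / ((√3 : ℝ) : ℂ))))) = -(2 / ((√3 : ℝ) : ℂ)) := by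
        rw [hG.one]
        push_cast
        ring
      rwa [h8] at h7
    have h7 : HasDerivAt q (-(2 / ((√3 : ℝ) : ℂ))) (m 1) := by rwa [h2]
    have h8 := h7.comp (1 : ℂ) h1
    have h9 : -(2 / ((√3 : ℝ) : ℂ)) * -((√3 / 4 : ℝ) : ℂ) = 1 / 2 := by
      push_cast
      field_simp
      norm_num
    rw [h9] at h8
    exact h8
  -- Julia
  have hx' : √3 * x < 1 := by
    rw [lt_div_iff₀ h30] at hx
    linarith
  let y : ℝ := 1 - 4 * x / √3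
  have hxy : 4 * x / √3 = 1 - y := by simp only [y]; ring
  have hdiv : x / √3 < 1 / 3 := by
    rw [div_lt_iff₀ h30]
    nlinarith
  have hdiv0 : 0 < x / √3 := by positivity
  have hy1 : -1 < y := by
    have : 4 * x / √3 = 4 * (x / √3) := by ring
    simp only [y]
    rw [this]
    linarith
  have hy2 : y < 1 := by
    have : 4 * x / √3 = 4 * (x / √3) := by ring
    simp only [y]
    rw [this]
    linarith
  have hJ := julia (fun ζ hζ => (hQd ζ (mem_ball_zero_iff.mp hζ).le).differentiableWithinAt)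
    hball hQ1 hQ1d hy1 hy2
  have hmy : m (y : ℂ) = (x : ℂ) := by
    have h1 : √3 / 4 * (1 - y) = x := by
      rw [← hxy]
      field_simp
    simp only [m]
    rw [← h1]
    push_cast
    ring
  set a : ℝ := (Q y).re with ha
  have hQy : a = (deriv F x).re * (1 - x / √3) ^ 2 := by
    rw [ha]
    simp only [Q, hmy, q]
    have h1 : (1 - (x : ℂ) / ((√3 : ℝ) : ℂ)) ^ 2 = (((1 - x / √3) ^ 2 : ℝ) : ℂ) := by
      push_cast
      ring
    rw [h1, Complex.re_mul_ofReal]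
  have hn1 : (1 - a) ^ 2 ≤ ‖1 - Q y‖ ^ 2 := by
    have h1 : |(1 - Q y).re| ≤ ‖1 - Q y‖ := Complex.abs_re_le_norm _
    have h2 : (1 - Q y).re = 1 - a := by simp [ha]
    rw [h2] at h1
    rw [← sq_abs (1 - a)]
    exact pow_le_pow_left₀ (abs_nonneg _) h1 2
  have hn2 : a ^ 2 ≤ ‖Q y‖ ^ 2 := by
    have h1 : |(Q y).re| ≤ ‖Q y‖ := Complex.abs_re_le_norm _
    rw [← sq_abs a]
    exact pow_le_pow_left₀ (abs_nonneg _) h1 2
  have hn3 : ‖Q y‖ ≤ 1 := by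
    refine hball _ ?_
    rw [mem_ball_zero_iff, Complex.norm_real, Real.norm_eq_abs, abs_lt]
    exact ⟨hy1, hy2⟩
  have ha1 : a ≤ 1 := (Complex.re_le_norm _).trans hn3
  have hy3 : 0 < 1 - y := by linarith
  have hy4 : 0 < 1 + y := by linarith
  have hJ2 : 2 * (1 + y) * (1 - a) ^ 2 ≤ (1 - a ^ 2) * (1 - y) := by
    have h1 : 2 * (1 - y ^ 2) * (1 - a) ^ 2 ≤ (1 - a ^ 2) * (1 - y) ^ 2 := by
      have h2 : 2 * (1 - y ^ 2) * (1 - a) ^ 2 ≤ 2 * (1 - y ^ 2) * ‖1 - Q y‖ ^ 2 := by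
        apply mul_le_mul_of_nonneg_left hn1
        nlinarith
      have h3 : (1 - ‖Q y‖ ^ 2) * (1 - y) ^ 2 ≤ (1 - a ^ 2) * (1 - y) ^ 2 := by
        apply mul_le_mul_of_nonneg_right _ (by positivity)
        linarith
      linarith
    have h2 : (1 - y) * (2 * (1 + y) * (1 - a) ^ 2) ≤ (1 - y) * ((1 - a ^ 2) * (1 - y)) := by
      nlinarith
    exact le_of_mul_le_mul_left h2 hy3
  have hJ3 : 1 + 3 * y ≤ a * (3 + y) := by
    rcases eq_or_lt_of_le ha1 with h | h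
    · rw [h]
      linarith
    · have h1 : 0 < 1 - a := by linarith
      have h2 : (1 - a) * (2 * (1 + y) * (1 - a)) ≤ (1 - a) * ((1 + a) * (1 - y)) := by
        nlinarith
      have h3 := le_of_mul_le_mul_left h2 h1
      nlinarith
  have hpos : 0 < 1 - x / √3 := by linarith
  have hy5 : 1 + 3 * y = 4 * (1 - √3 * x) := by
    have h1 : x / √3 = √3 * x / 3 := by
      rw [div_eq_div_iff h30.ne' (by norm_num)]
      nlinarith
    simp only [y]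
    have h2 : 4 * x / √3 = 4 * (x / √3) := by ring
    rw [h2, h1]
    ring
  have hy6 : 3 + y = 4 * (1 - x / √3) := by
    simp only [y]
    ring
  rw [hy5, hy6, hQy] at hJ3
  rw [div_le_iff₀ (by positivity)]
  nlinarith

/-- LC-3: Bonk's distortion theorem. -/
theorem bonk {F : ℂ → ℂ} (hG : Good F) {z : ℂ} (hz : ‖z‖ < 1 / √3) :
    (1 - √3 * ‖z‖) / (1 - ‖z‖ / √3) ^ 3 ≤ (deriv F z).re := by
  rcases eq_or_ne z 0 with h0 | h0
  · subst h0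
    simp [hG.one]
  · have hz0 : 0 < ‖z‖ := norm_pos_iff.mpr h0
    let u : ℂ := z / (‖z‖ : ℂ)
    have hzc : ((‖z‖ : ℝ) : ℂ) ≠ 0 := by exact_mod_cast hz0.ne'
    have hu : ‖u‖ = 1 := by
      simp only [u]
      rw [norm_div, Complex.norm_real, norm_norm, div_self hz0.ne']
    have huz : u * (‖z‖ : ℂ) = z := by
      simp only [u]
      exact div_mul_cancel₀ _ hzc
    have huu : (starRingEnd ℂ) u * u = 1 := by
      rw [mul_comm, Complex.mul_conj, Complex.normSq_eq_norm_sq, hu]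
      norm_num
    let G : ℂ → ℂ := fun w => (starRingEnd ℂ) u * F (u * w)
    have hmem : ∀ w ∈ ball (0 : ℂ) 1, u * w ∈ ball (0 : ℂ) 1 := by
      intro w hw
      rw [mem_ball_zero_iff] at hw ⊢
      rwa [norm_mul, hu, one_mul]
    have hGd : ∀ w ∈ ball (0 : ℂ) 1, HasDerivAt G (deriv F (u * w)) w := by
      intro w hw
      have h1 : HasDerivAt F (deriv F (u * w)) (u * w) :=
        (hG.diff.differentiableAt (isOpen_ball.mem_nhds (hmem w hw))).hasDerivAt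
      have h2 : HasDerivAt (fun w : ℂ => u * w) u w := by
        have := (hasDerivAt_id w).const_mul u
        simpa using this
      have h3 := (h1.comp w h2).const_mul ((starRingEnd ℂ) u)
      have h4 : (starRingEnd ℂ) u * (deriv F (u * w) * u) = deriv F (u * w) := by
        linear_combination deriv F (u * w) * huu
      rw [h4] at h3
      exact h3
    have hgood : Good G := by
      refine ⟨fun w hw => (hGd w hw).differentiableAt.differentiableWithinAt, ?_, ?_, ?_⟩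
      · simp [G, hG.zero]
      · rw [(hGd 0 (mem_ball_self (by norm_num))).deriv]
        simp [hG.one]
      · intro w hw
        rw [(hGd w hw).deriv]
        have h1 := hG.bd (u * w) (hmem w hw)
        rwa [norm_mul, hu, one_mul] at h1
    have h1 := bonk_real hgood hz0 hz
    have h2 : ((‖z‖ : ℝ) : ℂ) ∈ ball (0 : ℂ) 1 := by
      rw [mem_ball_zero_iff, Complex.norm_real, norm_norm]
      refine hz.trans_le ?_
      rw [div_le_one (Real.sqrt_pos.mpr (by norm_num))]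
      rw [show (1 : ℝ) = √1 by simp]
      exact Real.sqrt_le_sqrt (by norm_num)
    rw [(hGd _ h2).deriv, huz] at h1
    exact h1

end Pool.Agent.Helper50.LC
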